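import Mathlib

set_option autoImplicit false

namespace Pool.Agent.Results.MP_520ea7_co.NoMinimal

/-- A sum labeling of a graph: an injective map to the positive integers such that two distinct
vertices are adjacent exactly when the sum of their labels is again a label. -/
def IsSumLabeling {V : Type} (G : SimpleGraph V) (l : V → ℕ) : Prop :=
  Function.Injective l ∧ (∀ v, 0 < l v) ∧
    ∀ u v, u ≠ v → (G.Adj u v ↔ ∃ w, l w = l u + l v)

/-- A sum graph is a graph with at least one sum labeling. -/
def IsSumGraph {V : Type} (G : SimpleGraph V) : Prop := ∃ l, IsSumLabeling G l

/-- A graph has a minimal sum labeling if some sum labeling uses the label 1. -/
def HasMinimalSumLabeling {V : Type} (G : SimpleGraph V) : Prop :=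
  ∃ l, IsSumLabeling G l ∧ ∃ u, l u = 1

/-- Neighbour lists of the example. -/
def nb : Fin 8 → List (Fin 8)
  | 0 => [1, 2, 3, 4, 6]
  | 1 => [0, 2, 3, 5]
  | 2 => [0, 1, 4]
  | 3 => [0, 1]
  | 4 => [0, 2]
  | 5 => [1]
  | 6 => [0]
  | 7 => []

/-- The graph on 8 vertices induced by the label set 2, 3, 4, 5, 6, 7, 8, 10. -/
def ex : SimpleGraph (Fin 8) where
  Adj i j := j ∈ nb i
  symm := by
    constructor
    intro i j h
    revert i j
    decide
  loopless := by
    constructor
    intro i h
    revert i
    decide

/-- The labels of the witness sum labeling. -/
def lab : Fin 8 → ℕ
  | 0 => 2
  | 1 => 3
  | 2 => 4
  | 3 => 5
  | 4 => 6
  | 5 => 7
  | 6 => 8
  | 7 => 10

instance : DecidableRel ex.Adj := fun i j => inferInstanceAs (Decidable (j ∈ nb i))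

theorem ex_isSumGraph : IsSumGraph ex := by
  refine ⟨lab, ?_, ?_, ?_⟩
  · intro i j h
    revert i j
    decide
  · decide
  · decide

/-- One of eight numbers equals a given one. -/
def D (a : Fin 8 → ℕ) (x : ℕ) : Prop :=
  a 0 = x ∨ a 1 = x ∨ a 2 = x ∨ a 3 = x ∨ a 4 = x ∨ a 5 = x ∨ a 6 = x ∨ a 7 = x

theorem D_of_ex (a : Fin 8 → ℕ) (x : ℕ) (h : ∃ w, a w = x) : D a x := by
  obtain ⟨w, h⟩ := h
  unfold D
  fin_cases w <;> simp_all

theorem core (a : Fin 8 → ℕ) (hinj : ∀ i j : Fin 8, i ≠ j → a i = a j → False)
    (p0 : 0 < a 0) (p1 : 0 < a 1) (p2 : 0 < a 2) (p3 : 0 < a 3) (p4 : 0 < a 4) (p5 : 0 < a 5)
    (p6 : 0 < a 6) (p7 : 0 < a 7)
    (m0 : a 0 < a 7) (m1 : a 1 < a 7) (m2 : a 2 < a 7) (m3 : a 3 < a 7) (m4 : a 4 < a 7)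
    (m5 : a 5 < a 7) (m6 : a 6 < a 7)
    (hnon : ∀ i j w : Fin 8, (i ≠ j ∧ j ∉ nb i) → a w = a i + a j → False)
    (h01 : D a (a 0 + a 1)) (h02 : D a (a 0 + a 2)) (h03 : D a (a 0 + a 3))
    (h04 : D a (a 0 + a 4)) (h06 : D a (a 0 + a 6)) (h12 : D a (a 1 + a 2))
    (h13 : D a (a 1 + a 3)) (h15 : D a (a 1 + a 5)) (h24 : D a (a 2 + a 4)) :
    2 * a 1 = 3 * a 0 ∧ a 2 = 2 * a 0 ∧ 2 * a 3 = 5 * a 0 ∧ a 4 = 3 * a 0 ∧
      2 * a 5 = 7 * a 0 ∧ a 6 = 4 * a 0 ∧ a 7 = 5 * a 0 := by
  rcases h01 with h | h | h | h | h | h | h | h
  · omega
  · omega
  · rcases h24 with h | h | h | h | h | h | h | h
    · omega
    · omega
    · omega
    · rcases h04 with h | h | h | h | h | h | h | h
      · omega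
      · rcases h15 with h | h | h | h | h | h | h | h
        · omega
        · omega
        · exact (hinj 0 5 (by decide) (by omega)).elim
        · exact (hinj 1 5 (by decide) (by omega)).elim
        · omega
        · omega
        · rcases h06 with h | h | h | h | h | h | h | h
          · omega
          · omega
          · omega
          · exact (hinj 4 5 (by decide) (by omega)).elim
          · omega
          · omega
          · omega
          · exact (hnon 2 5 7 (by decide) (by omega)).elim
        · rcases h03 with h | h | h | h | h | h | h | h
          · omega
          · omega
          · omega
          · omega
          · omega
          · exact (hnon 2 3 7 (by decide) (by omega)).elim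
          · rcases h02 with h | h | h | h | h | h | h | h
            · omega
            · omega
            · omega
            · exact (hinj 0 4 (by decide) (by omega)).elim
            · omega
            · exact (hnon 4 5 6 (by decide) (by omega)).elim
            · omega
            · omega
          · exact (hinj 2 5 (by decide) (by omega)).elim
      · exact (hinj 1 4 (by decide) (by omega)).elim
      · omega
      · omega
      · rcases h03 with h | h | h | h | h | h | h | h
        · omega
        · omega
        · omega
        · omega
        · omega
        · omega
        · exact (hnon 2 5 6 (by decide) (by omega)).elim
        · exact (hnon 2 5 7 (by decide) (by omega)).elim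
      · exact (hnon 1 6 3 (by decide) (by omega)).elim
      · omega
    · omega
    · rcases h04 with h | h | h | h | h | h | h | h
      · omega
      · rcases h12 with h | h | h | h | h | h | h | h
        · omega
        · omega
        · omega
        · exact (hnon 0 5 3 (by decide) (by omega)).elim
        · omega
        · omega
        · exact (hnon 0 5 6 (by decide) (by omega)).elim
        · exact (hnon 0 5 7 (by decide) (by omega)).elim
      · exact (hinj 1 4 (by decide) (by omega)).elim
      · rcases h15 with h | h | h | h | h | h | h | h
        · omega
        · omega
        · omega
        · omega
        · omega
        · omega
        · rcases h06 with h | h | h | h | h | h | h | h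
          · omega
          · omega
          · omega
          · omega
          · omega
          · omega
          · omega
          · exact (hnon 2 5 7 (by decide) (by omega)).elim
        · rcases h12 with h | h | h | h | h | h | h | h
          · omega
          · omega
          · omega
          · exact (hnon 3 4 7 (by decide) (by omega)).elim
          · rcases h02 with h | h | h | h | h | h | h | h
            · omega
            · omega
            · omega
            · omega
            · exact (hinj 0 1 (by decide) (by omega)).elim
            · omega
            · exact (hnon 1 6 3 (by decide) (by omega)).elim
            · omega
          · exact (hinj 2 3 (by decide) (by omega)).elim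
          · exact (hnon 4 6 7 (by decide) (by omega)).elim
          · omega
      · omega
      · omega
      · exact (hnon 1 6 5 (by decide) (by omega)).elim
      · omega
    · rcases h04 with h | h | h | h | h | h | h | h
      · omega
      · rcases h13 with h | h | h | h | h | h | h | h
        · omega
        · omega
        · exact (hinj 0 3 (by decide) (by omega)).elim
        · omega
        · omega
        · rcases h15 with h | h | h | h | h | h | h | h
          · omega
          · omega
          · omega
          · omega
          · omega
          · omega
          · omega
          · exact (hnon 3 6 7 (by decide) (by omega)).elim
        · exact (hinj 1 3 (by decide) (by omega)).elim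
        · rcases h03 with h | h | h | h | h | h | h | h
          · omega
          · omega
          · omega
          · omega
          · omega
          · exact (hnon 4 5 7 (by decide) (by omega)).elim
          · exact (hnon 1 4 3 (by decide) (by omega)).elim
          · omega
      · exact (hinj 1 4 (by decide) (by omega)).elim
      · rcases h06 with h | h | h | h | h | h | h | h
        · omega
        · omega
        · omega
        · omega
        · omega
        · exact (hnon 2 3 5 (by decide) (by omega)).elim
        · omega
        · exact (hnon 2 3 7 (by decide) (by omega)).elim
      · omega
      · rcases h06 with h | h | h | h | h | h | h | h
        · omega
        · omega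
        · omega
        · exact (hnon 2 5 3 (by decide) (by omega)).elim
        · omega
        · omega
        · omega
        · exact (hnon 2 5 7 (by decide) (by omega)).elim
      · omega
      · omega
    · rcases h04 with h | h | h | h | h | h | h | h
      · omega
      · rcases h12 with h | h | h | h | h | h | h | h
        · omega
        · omega
        · omega
        · omega
        · omega
        · omega
        · omega
        · omega
      · exact (hinj 1 4 (by decide) (by omega)).elim
      · rcases h02 with h | h | h | h | h | h | h | h
        · omega
        · omega
        · omega
        · exact (hinj 2 4 (by decide) (by omega)).elim
        · rcases h03 with h | h | h | h | h | h | h | h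
          · omega
          · omega
          · omega
          · omega
          · omega
          · rcases h06 with h | h | h | h | h | h | h | h
            · omega
            · exact (hnon 5 6 7 (by decide) (by omega)).elim
            · exact (hinj 1 6 (by decide) (by omega)).elim
            · exact (hinj 4 6 (by decide) (by omega)).elim
            · exact (hinj 2 6 (by decide) (by omega)).elim
            · exact (hinj 3 6 (by decide) (by omega)).elim
            · omega
            · exact (hnon 1 4 6 (by decide) (by omega)).elim
          · rcases h06 with h | h | h | h | h | h | h | h
            · omega
            · omega
            · omega
            · omega
            · omega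
            · rcases h15 with h | h | h | h | h | h | h | h
              · omega
              · omega
              · omega
              · omega
              · omega
              · omega
              · omega
              · omega
            · omega
            · exact (hnon 1 4 6 (by decide) (by omega)).elim
          · exact (hinj 0 1 (by decide) (by omega)).elim
        · rcases h06 with h | h | h | h | h | h | h | h
          · omega
          · rcases h12 with h | h | h | h | h | h | h | h
            · omega
            · omega
            · omega
            · exact (hnon 2 6 4 (by decide) (by omega)).elim
            · exact (hnon 5 6 4 (by decide) (by omega)).elim
            · omega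
            · omega
            · exact (hinj 2 3 (by decide) (by omega)).elim
          · exact (hinj 1 6 (by decide) (by omega)).elim
          · exact (hinj 4 6 (by decide) (by omega)).elim
          · exact (hnon 5 6 7 (by decide) (by omega)).elim
          · exact (hinj 2 6 (by decide) (by omega)).elim
          · omega
          · exact (hnon 1 4 6 (by decide) (by omega)).elim
        · rcases h03 with h | h | h | h | h | h | h | h
          · omega
          · rcases h12 with h | h | h | h | h | h | h | h
            · omega
            · omega
            · omega
            · omega
            · omega
            · omega
            · omega
            · omega
          · exact (hinj 1 3 (by decide) (by omega)).elim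
          · omega
          · omega
          · rcases h15 with h | h | h | h | h | h | h | h
            · omega
            · omega
            · omega
            · omega
            · omega
            · omega
            · omega
            · omega
          · exact (hinj 2 3 (by decide) (by omega)).elim
          · exact (hinj 0 1 (by decide) (by omega)).elim
        · exact (hinj 0 4 (by decide) (by omega)).elim
      · omega
      · rcases h02 with h | h | h | h | h | h | h | h
        · omega
        · omega
        · omega
        · rcases h06 with h | h | h | h | h | h | h | h
          · omega
          · rcases h12 with h | h | h | h | h | h | h | h
            · omega
            · omega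
            · omega
            · omega
            · exact (hnon 3 6 4 (by decide) (by omega)).elim
            · exact (hnon 2 6 4 (by decide) (by omega)).elim
            · omega
            · exact (hinj 1 4 (by decide) (by omega)).elim
          · exact (hinj 1 6 (by decide) (by omega)).elim
          · exact (hinj 2 6 (by decide) (by omega)).elim
          · exact (hnon 3 6 7 (by decide) (by omega)).elim
          · exact (hinj 4 6 (by decide) (by omega)).elim
          · omega
          · exact (hnon 1 4 6 (by decide) (by omega)).elim
        · rcases h03 with h | h | h | h | h | h | h | h
          · omega
          · rcases h12 with h | h | h | h | h | h | h | h
            · omega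
            · omega
            · omega
            · omega
            · omega
            · exact (hinj 0 3 (by decide) (by omega)).elim
            · exact (hnon 3 4 6 (by decide) (by omega)).elim
            · omega
          · exact (hinj 1 3 (by decide) (by omega)).elim
          · omega
          · exact (hinj 2 3 (by decide) (by omega)).elim
          · exact (hinj 3 4 (by decide) (by omega)).elim
          · rcases h06 with h | h | h | h | h | h | h | h
            · omega
            · rcases h12 with h | h | h | h | h | h | h | h
              · omega
              · omega
              · omega
              · omega
              · omega
              · omega
              · omega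
              · omega
            · exact (hinj 1 6 (by decide) (by omega)).elim
            · omega
            · exact (hinj 1 3 (by decide) (by omega)).elim
            · exact (hinj 2 3 (by decide) (by omega)).elim
            · omega
            · exact (hnon 1 4 6 (by decide) (by omega)).elim
          · exact (hnon 1 4 3 (by decide) (by omega)).elim
        · exact (hinj 2 4 (by decide) (by omega)).elim
        · rcases h03 with h | h | h | h | h | h | h | h
          · omega
          · rcases h12 with h | h | h | h | h | h | h | h
            · omega
            · omega
            · omega
            · omega
            · exact (hnon 1 6 5 (by decide) (by omega)).elim
            · exact (hnon 2 3 4 (by decide) (by omega)).elim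
            · omega
            · exact (hinj 1 4 (by decide) (by omega)).elim
          · exact (hinj 1 3 (by decide) (by omega)).elim
          · omega
          · exact (hnon 3 6 7 (by decide) (by omega)).elim
          · exact (hinj 3 4 (by decide) (by omega)).elim
          · exact (hinj 2 3 (by decide) (by omega)).elim
          · exact (hnon 1 4 3 (by decide) (by omega)).elim
        · exact (hinj 0 4 (by decide) (by omega)).elim
      · exact (hnon 1 6 7 (by decide) (by omega)).elim
      · omega
  · rcases h02 with h | h | h | h | h | h | h | h
    · omega
    · rcases h15 with h | h | h | h | h | h | h | h
      · omega
      · omega
      · omega
      · exact (hinj 0 5 (by decide) (by omega)).elim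
      · rcases h04 with h | h | h | h | h | h | h | h
        · omega
        · omega
        · omega
        · omega
        · omega
        · omega
        · exact (hnon 3 5 6 (by decide) (by omega)).elim
        · exact (hnon 3 5 7 (by decide) (by omega)).elim
      · omega
      · rcases h06 with h | h | h | h | h | h | h | h
        · omega
        · omega
        · omega
        · omega
        · exact (hnon 3 5 4 (by decide) (by omega)).elim
        · omega
        · omega
        · exact (hnon 3 5 7 (by decide) (by omega)).elim
      · rcases h04 with h | h | h | h | h | h | h | h
        · omega
        · exact (hinj 2 4 (by decide) (by omega)).elim
        · rcases h12 with h | h | h | h | h | h | h | h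
          · omega
          · omega
          · omega
          · omega
          · omega
          · exact (hnon 3 4 5 (by decide) (by omega)).elim
          · exact (hnon 3 4 6 (by decide) (by omega)).elim
          · exact (hinj 2 5 (by decide) (by omega)).elim
        · exact (hinj 1 4 (by decide) (by omega)).elim
        · omega
        · exact (hnon 3 4 7 (by decide) (by omega)).elim
        · rcases h06 with h | h | h | h | h | h | h | h
          · omega
          · exact (hinj 2 6 (by decide) (by omega)).elim
          · rcases h12 with h | h | h | h | h | h | h | h
            · omega
            · omega
            · omega
            · omega
            · omega
            · exact (hnon 3 6 5 (by decide) (by omega)).elim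
            · omega
            · exact (hinj 2 5 (by decide) (by omega)).elim
          · exact (hinj 2 4 (by decide) (by omega)).elim
          · omega
          · exact (hnon 3 6 7 (by decide) (by omega)).elim
          · omega
          · exact (hnon 2 5 6 (by decide) (by omega)).elim
        · exact (hnon 2 5 4 (by decide) (by omega)).elim
    · omega
    · exact (hinj 1 2 (by decide) (by omega)).elim
    · rcases h03 with h | h | h | h | h | h | h | h
      · omega
      · omega
      · rcases h04 with h | h | h | h | h | h | h | h
        · omega
        · omega
        · omega
        · omega
        · omega
        · rcases h15 with h | h | h | h | h | h | h | h
          · omega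
          · omega
          · omega
          · omega
          · omega
          · omega
          · exact (hnon 3 4 6 (by decide) (by omega)).elim
          · exact (hnon 3 4 7 (by decide) (by omega)).elim
        · rcases h24 with h | h | h | h | h | h | h | h
          · omega
          · omega
          · omega
          · omega
          · omega
          · exact (hnon 3 6 5 (by decide) (by omega)).elim
          · omega
          · exact (hnon 3 6 7 (by decide) (by omega)).elim
        · rcases h24 with h | h | h | h | h | h | h | h
          · omega
          · omega
          · omega
          · omega
          · omega
          · omega
          · omega
          · omega
      · omega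
      · exact (hinj 2 3 (by decide) (by omega)).elim
      · rcases h04 with h | h | h | h | h | h | h | h
        · omega
        · rcases h13 with h | h | h | h | h | h | h | h
          · omega
          · omega
          · omega
          · omega
          · omega
          · omega
          · exact (hnon 4 5 6 (by decide) (by omega)).elim
          · exact (hnon 4 5 7 (by decide) (by omega)).elim
        · omega
        · exact (hinj 1 4 (by decide) (by omega)).elim
        · omega
        · exact (hinj 1 2 (by decide) (by omega)).elim
        · rcases h06 with h | h | h | h | h | h | h | h
          · omega
          · rcases h12 with h | h | h | h | h | h | h | h
            · omega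
            · omega
            · omega
            · exact (hinj 0 2 (by decide) (by omega)).elim
            · omega
            · exact (hnon 2 6 3 (by decide) (by omega)).elim
            · omega
            · exact (hnon 4 6 7 (by decide) (by omega)).elim
          · omega
          · exact (hinj 1 6 (by decide) (by omega)).elim
          · omega
          · exact (hinj 1 4 (by decide) (by omega)).elim
          · omega
          · rcases h15 with h | h | h | h | h | h | h | h
            · omega
            · omega
            · exact (hnon 3 5 4 (by decide) (by omega)).elim
            · omega
            · exact (hnon 3 5 6 (by decide) (by omega)).elim
            · omega
            · exact (hnon 3 5 7 (by decide) (by omega)).elim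
            · rcases h12 with h | h | h | h | h | h | h | h
              · exact (hnon 2 6 5 (by decide) (by omega)).elim
              · omega
              · omega
              · exact (hinj 0 1 (by decide) (by omega)).elim
              · exact (hinj 0 1 (by decide) (by omega)).elim
              · refine ⟨?_, ?_, ?_, ?_, ?_, ?_, ?_⟩ <;> omega
              · exact (hinj 2 3 (by decide) (by omega)).elim
              · exact (hinj 2 5 (by decide) (by omega)).elim
        · rcases h06 with h | h | h | h | h | h | h | h
          · omega
          · rcases h12 with h | h | h | h | h | h | h | h
            · omega
            · omega
            · omega
            · omega
            · omega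
            · exact (hnon 2 6 3 (by decide) (by omega)).elim
            · omega
            · exact (hinj 0 6 (by decide) (by omega)).elim
          · rcases h12 with h | h | h | h | h | h | h | h
            · omega
            · omega
            · omega
            · omega
            · exact (hinj 0 1 (by decide) (by omega)).elim
            · exact (hinj 0 6 (by decide) (by omega)).elim
            · omega
            · exact (hnon 1 6 4 (by decide) (by omega)).elim
          · exact (hinj 1 6 (by decide) (by omega)).elim
          · exact (hinj 2 6 (by decide) (by omega)).elim
          · exact (hinj 3 6 (by decide) (by omega)).elim
          · omega
          · exact (hinj 4 6 (by decide) (by omega)).elim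
      · rcases h04 with h | h | h | h | h | h | h | h
        · omega
        · rcases h13 with h | h | h | h | h | h | h | h
          · omega
          · omega
          · omega
          · omega
          · omega
          · exact (hnon 4 6 5 (by decide) (by omega)).elim
          · omega
          · exact (hnon 4 6 7 (by decide) (by omega)).elim
        · omega
        · exact (hinj 1 4 (by decide) (by omega)).elim
        · omega
        · rcases h15 with h | h | h | h | h | h | h | h
          · omega
          · omega
          · omega
          · omega
          · omega
          · omega
          · omega
          · exact (hnon 2 6 7 (by decide) (by omega)).elim
        · exact (hinj 1 2 (by decide) (by omega)).elim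
        · rcases h06 with h | h | h | h | h | h | h | h
          · omega
          · omega
          · rcases h12 with h | h | h | h | h | h | h | h
            · omega
            · omega
            · omega
            · omega
            · exact (hinj 0 1 (by decide) (by omega)).elim
            · exact (hnon 3 6 5 (by decide) (by omega)).elim
            · omega
            · exact (hnon 1 6 4 (by decide) (by omega)).elim
          · omega
          · exact (hinj 2 6 (by decide) (by omega)).elim
          · rcases h15 with h | h | h | h | h | h | h | h
            · omega
            · omega
            · exact (hnon 3 5 4 (by decide) (by omega)).elim
            · omega
            · exact (hnon 1 6 2 (by decide) (by omega)).elim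
            · omega
            · omega
            · exact (hnon 1 6 4 (by decide) (by omega)).elim
          · omega
          · exact (hinj 2 3 (by decide) (by omega)).elim
      · rcases h04 with h | h | h | h | h | h | h | h
        · omega
        · rcases h13 with h | h | h | h | h | h | h | h
          · omega
          · omega
          · omega
          · omega
          · omega
          · omega
          · omega
          · omega
        · omega
        · exact (hinj 1 4 (by decide) (by omega)).elim
        · omega
        · rcases h15 with h | h | h | h | h | h | h | h
          · omega
          · omega
          · omega
          · omega
          · omega
          · omega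
          · omega
          · omega
        · rcases h06 with h | h | h | h | h | h | h | h
          · omega
          · rcases h12 with h | h | h | h | h | h | h | h
            · omega
            · omega
            · omega
            · exact (hinj 0 2 (by decide) (by omega)).elim
            · omega
            · exact (hnon 4 6 5 (by decide) (by omega)).elim
            · omega
            · exact (hnon 2 6 3 (by decide) (by omega)).elim
          · omega
          · exact (hinj 1 6 (by decide) (by omega)).elim
          · omega
          · rcases h13 with h | h | h | h | h | h | h | h
            · omega
            · omega
            · omega
            · omega
            · omega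
            · omega
            · omega
            · omega
          · omega
          · exact (hinj 1 4 (by decide) (by omega)).elim
        · exact (hinj 1 2 (by decide) (by omega)).elim
    · rcases h15 with h | h | h | h | h | h | h | h
      · omega
      · omega
      · omega
      · omega
      · exact (hnon 2 3 4 (by decide) (by omega)).elim
      · omega
      · exact (hnon 2 3 6 (by decide) (by omega)).elim
      · exact (hnon 2 3 7 (by decide) (by omega)).elim
    · rcases h03 with h | h | h | h | h | h | h | h
      · omega
      · omega
      · rcases h24 with h | h | h | h | h | h | h | h
        · omega
        · omega
        · omega
        · omega
        · omega
        · rcases h04 with h | h | h | h | h | h | h | h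
          · omega
          · rcases h12 with h | h | h | h | h | h | h | h
            · omega
            · omega
            · omega
            · omega
            · omega
            · omega
            · omega
            · exact (hnon 0 5 7 (by decide) (by omega)).elim
          · exact (hinj 3 4 (by decide) (by omega)).elim
          · exact (hinj 1 4 (by decide) (by omega)).elim
          · omega
          · omega
          · exact (hinj 2 4 (by decide) (by omega)).elim
          · omega
        · exact (hinj 0 4 (by decide) (by omega)).elim
        · rcases h04 with h | h | h | h | h | h | h | h
          · omega
          · rcases h12 with h | h | h | h | h | h | h | h
            · omega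
            · omega
            · omega
            · omega
            · omega
            · omega
            · omega
            · omega
          · exact (hinj 3 4 (by decide) (by omega)).elim
          · exact (hinj 1 4 (by decide) (by omega)).elim
          · omega
          · exact (hnon 3 5 7 (by decide) (by omega)).elim
          · exact (hinj 2 4 (by decide) (by omega)).elim
          · omega
      · omega
      · rcases h24 with h | h | h | h | h | h | h | h
        · omega
        · omega
        · omega
        · omega
        · omega
        · exact (hnon 3 6 5 (by decide) (by omega)).elim
        · omega
        · exact (hnon 3 6 7 (by decide) (by omega)).elim
      · rcases h04 with h | h | h | h | h | h | h | h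
        · omega
        · rcases h12 with h | h | h | h | h | h | h | h
          · omega
          · omega
          · omega
          · exact (hinj 0 2 (by decide) (by omega)).elim
          · omega
          · exact (hnon 4 6 5 (by decide) (by omega)).elim
          · omega
          · exact (hnon 4 6 7 (by decide) (by omega)).elim
        · rcases h12 with h | h | h | h | h | h | h | h
          · omega
          · omega
          · omega
          · omega
          · omega
          · exact (hinj 0 4 (by decide) (by omega)).elim
          · exact (hinj 0 1 (by decide) (by omega)).elim
          · exact (hnon 3 4 7 (by decide) (by omega)).elim
        · exact (hinj 1 4 (by decide) (by omega)).elim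
        · omega
        · exact (hinj 3 4 (by decide) (by omega)).elim
        · exact (hinj 2 4 (by decide) (by omega)).elim
        · rcases h24 with h | h | h | h | h | h | h | h
          · omega
          · omega
          · omega
          · omega
          · omega
          · rcases h06 with h | h | h | h | h | h | h | h
            · omega
            · rcases h12 with h | h | h | h | h | h | h | h
              · omega
              · omega
              · omega
              · omega
              · omega
              · omega
              · omega
              · omega
            · omega
            · exact (hinj 1 6 (by decide) (by omega)).elim
            · exact (hnon 2 6 3 (by decide) (by omega)).elim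
            · exact (hinj 1 2 (by decide) (by omega)).elim
            · omega
            · exact (hinj 4 6 (by decide) (by omega)).elim
          · omega
          · exact (hinj 0 2 (by decide) (by omega)).elim
      · exact (hinj 2 3 (by decide) (by omega)).elim
      · rcases h04 with h | h | h | h | h | h | h | h
        · omega
        · rcases h12 with h | h | h | h | h | h | h | h
          · omega
          · omega
          · omega
          · exact (hinj 0 2 (by decide) (by omega)).elim
          · omega
          · exact (hnon 4 6 5 (by decide) (by omega)).elim
          · omega
          · exact (hnon 4 6 7 (by decide) (by omega)).elim
        · rcases h12 with h | h | h | h | h | h | h | h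
          · omega
          · omega
          · omega
          · omega
          · omega
          · exact (hnon 3 4 5 (by decide) (by omega)).elim
          · exact (hinj 0 1 (by decide) (by omega)).elim
          · exact (hinj 0 4 (by decide) (by omega)).elim
        · exact (hinj 1 4 (by decide) (by omega)).elim
        · omega
        · rcases h15 with h | h | h | h | h | h | h | h
          · omega
          · omega
          · omega
          · omega
          · omega
          · omega
          · exact (hnon 1 4 2 (by decide) (by omega)).elim
          · exact (hinj 0 4 (by decide) (by omega)).elim
        · exact (hinj 2 4 (by decide) (by omega)).elim
        · exact (hinj 3 4 (by decide) (by omega)).elim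
    · rcases h03 with h | h | h | h | h | h | h | h
      · omega
      · omega
      · rcases h24 with h | h | h | h | h | h | h | h
        · omega
        · omega
        · omega
        · omega
        · omega
        · rcases h04 with h | h | h | h | h | h | h | h
          · omega
          · rcases h06 with h | h | h | h | h | h | h | h
            · omega
            · exact (hinj 4 6 (by decide) (by omega)).elim
            · exact (hinj 3 6 (by decide) (by omega)).elim
            · exact (hinj 1 6 (by decide) (by omega)).elim
            · omega
            · exact (hnon 3 4 6 (by decide) (by omega)).elim
            · omega
            · exact (hinj 2 6 (by decide) (by omega)).elim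
          · omega
          · exact (hinj 1 4 (by decide) (by omega)).elim
          · omega
          · omega
          · exact (hnon 3 6 5 (by decide) (by omega)).elim
          · omega
        · rcases h06 with h | h | h | h | h | h | h | h
          · omega
          · omega
          · omega
          · omega
          · omega
          · omega
          · omega
          · omega
        · exact (hinj 0 4 (by decide) (by omega)).elim
      · omega
      · rcases h24 with h | h | h | h | h | h | h | h
        · omega
        · omega
        · omega
        · omega
        · omega
        · omega
        · omega
        · omega
      · rcases h24 with h | h | h | h | h | h | h | h
        · omega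
        · omega
        · omega
        · omega
        · omega
        · rcases h06 with h | h | h | h | h | h | h | h
          · omega
          · rcases h12 with h | h | h | h | h | h | h | h
            · omega
            · omega
            · omega
            · omega
            · omega
            · omega
            · omega
            · omega
          · exact (hnon 4 6 3 (by decide) (by omega)).elim
          · exact (hinj 1 6 (by decide) (by omega)).elim
          · omega
          · exact (hinj 3 6 (by decide) (by omega)).elim
          · omega
          · exact (hinj 2 6 (by decide) (by omega)).elim
        · rcases h06 with h | h | h | h | h | h | h | h
          · omega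
          · omega
          · omega
          · omega
          · omega
          · omega
          · omega
          · omega
        · exact (hinj 0 4 (by decide) (by omega)).elim
      · rcases h24 with h | h | h | h | h | h | h | h
        · omega
        · omega
        · omega
        · omega
        · omega
        · rcases h12 with h | h | h | h | h | h | h | h
          · omega
          · omega
          · omega
          · omega
          · omega
          · exact (hinj 1 4 (by decide) (by omega)).elim
          · rcases h04 with h | h | h | h | h | h | h | h
            · omega
            · omega
            · omega
            · exact (hinj 1 4 (by decide) (by omega)).elim
            · omega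
            · omega
            · omega
            · omega
          · exact (hinj 0 1 (by decide) (by omega)).elim
        · rcases h06 with h | h | h | h | h | h | h | h
          · omega
          · omega
          · omega
          · omega
          · omega
          · omega
          · omega
          · omega
        · exact (hinj 0 4 (by decide) (by omega)).elim
      · exact (hinj 2 3 (by decide) (by omega)).elim
  · rcases h24 with h | h | h | h | h | h | h | h
    · omega
    · omega
    · omega
    · rcases h02 with h | h | h | h | h | h | h | h
      · omega
      · rcases h03 with h | h | h | h | h | h | h | h
        · omega
        · omega
        · omega
        · omega
        · omega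
        · exact (hnon 1 4 5 (by decide) (by omega)).elim
        · exact (hnon 1 4 6 (by decide) (by omega)).elim
        · exact (hnon 1 4 7 (by decide) (by omega)).elim
      · omega
      · omega
      · exact (hinj 1 2 (by decide) (by omega)).elim
      · rcases h03 with h | h | h | h | h | h | h | h
        · omega
        · omega
        · omega
        · omega
        · omega
        · omega
        · exact (hnon 4 5 6 (by decide) (by omega)).elim
        · exact (hnon 4 5 7 (by decide) (by omega)).elim
      · exact (hnon 1 6 3 (by decide) (by omega)).elim
      · omega
    · omega
    · rcases h02 with h | h | h | h | h | h | h | h
      · omega
      · rcases h12 with h | h | h | h | h | h | h | h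
        · omega
        · omega
        · omega
        · rcases h13 with h | h | h | h | h | h | h | h
          · omega
          · omega
          · omega
          · omega
          · omega
          · omega
          · exact (hnon 2 5 6 (by decide) (by omega)).elim
          · exact (hnon 2 5 7 (by decide) (by omega)).elim
        · exact (hinj 0 2 (by decide) (by omega)).elim
        · omega
        · rcases h15 with h | h | h | h | h | h | h | h
          · omega
          · omega
          · omega
          · exact (hnon 4 6 3 (by decide) (by omega)).elim
          · omega
          · omega
          · omega
          · exact (hnon 4 6 7 (by decide) (by omega)).elim
        · omega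
      · omega
      · rcases h12 with h | h | h | h | h | h | h | h
        · rcases h03 with h | h | h | h | h | h | h | h
          · omega
          · omega
          · omega
          · omega
          · omega
          · omega
          · exact (hnon 2 5 6 (by decide) (by omega)).elim
          · exact (hnon 2 5 7 (by decide) (by omega)).elim
        · omega
        · omega
        · exact (hinj 0 1 (by decide) (by omega)).elim
        · exact (hinj 0 2 (by decide) (by omega)).elim
        · omega
        · rcases h15 with h | h | h | h | h | h | h | h
          · omega
          · omega
          · omega
          · omega
          · omega
          · omega
          · omega
          · exact (hnon 4 6 7 (by decide) (by omega)).elim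
        · omega
      · exact (hinj 1 2 (by decide) (by omega)).elim
      · omega
      · exact (hnon 1 6 5 (by decide) (by omega)).elim
      · omega
    · rcases h12 with h | h | h | h | h | h | h | h
      · rcases h04 with h | h | h | h | h | h | h | h
        · omega
        · omega
        · omega
        · exact (hnon 1 6 3 (by decide) (by omega)).elim
        · omega
        · exact (hnon 1 6 5 (by decide) (by omega)).elim
        · omega
        · exact (hnon 1 6 7 (by decide) (by omega)).elim
      · omega
      · omega
      · rcases h02 with h | h | h | h | h | h | h | h
        · omega
        · rcases h06 with h | h | h | h | h | h | h | h
          · omega
          · omega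
          · omega
          · omega
          · omega
          · exact (hnon 1 4 5 (by decide) (by omega)).elim
          · omega
          · exact (hnon 1 4 7 (by decide) (by omega)).elim
        · omega
        · exact (hinj 0 1 (by decide) (by omega)).elim
        · exact (hinj 1 2 (by decide) (by omega)).elim
        · rcases h06 with h | h | h | h | h | h | h | h
          · omega
          · omega
          · omega
          · omega
          · omega
          · omega
          · omega
          · exact (hnon 4 5 7 (by decide) (by omega)).elim
        · omega
        · omega
      · exact (hinj 0 2 (by decide) (by omega)).elim
      · exact (hnon 0 5 6 (by decide) (by omega)).elim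
      · omega
      · omega
    · rcases h02 with h | h | h | h | h | h | h | h
      · omega
      · rcases h12 with h | h | h | h | h | h | h | h
        · omega
        · omega
        · omega
        · rcases h13 with h | h | h | h | h | h | h | h
          · omega
          · omega
          · omega
          · omega
          · omega
          · omega
          · omega
          · omega
        · exact (hinj 0 2 (by decide) (by omega)).elim
        · exact (hnon 0 5 7 (by decide) (by omega)).elim
        · rcases h13 with h | h | h | h | h | h | h | h
          · omega
          · omega
          · omega
          · omega
          · exact (hinj 0 3 (by decide) (by omega)).elim
          · rcases h03 with h | h | h | h | h | h | h | h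
            · omega
            · exact (hinj 2 3 (by decide) (by omega)).elim
            · exact (hnon 0 5 6 (by decide) (by omega)).elim
            · omega
            · omega
            · omega
            · exact (hnon 2 6 5 (by decide) (by omega)).elim
            · omega
          · exact (hinj 2 3 (by decide) (by omega)).elim
          · exact (hinj 1 3 (by decide) (by omega)).elim
        · omega
      · omega
      · rcases h12 with h | h | h | h | h | h | h | h
        · rcases h03 with h | h | h | h | h | h | h | h
          · omega
          · omega
          · omega
          · omega
          · omega
          · omega
          · omega
          · omega
        · omega
        · omega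
        · exact (hinj 0 1 (by decide) (by omega)).elim
        · exact (hinj 0 2 (by decide) (by omega)).elim
        · exact (hnon 0 5 7 (by decide) (by omega)).elim
        · rcases h15 with h | h | h | h | h | h | h | h
          · exact (hnon 5 6 3 (by decide) (by omega)).elim
          · omega
          · exact (hnon 4 5 3 (by decide) (by omega)).elim
          · rcases h03 with h | h | h | h | h | h | h | h
            · omega
            · omega
            · omega
            · omega
            · omega
            · omega
            · exact (hnon 0 5 2 (by decide) (by omega)).elim
            · exact (hinj 0 1 (by decide) (by omega)).elim
          · exact (hinj 0 5 (by decide) (by omega)).elim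
          · omega
          · exact (hinj 2 5 (by decide) (by omega)).elim
          · exact (hinj 3 5 (by decide) (by omega)).elim
        · omega
      · exact (hinj 1 2 (by decide) (by omega)).elim
      · rcases h04 with h | h | h | h | h | h | h | h
        · omega
        · omega
        · rcases h12 with h | h | h | h | h | h | h | h
          · omega
          · omega
          · omega
          · rcases h06 with h | h | h | h | h | h | h | h
            · omega
            · exact (hnon 5 6 3 (by decide) (by omega)).elim
            · exact (hinj 4 6 (by decide) (by omega)).elim
            · exact (hnon 1 4 6 (by decide) (by omega)).elim
            · exact (hinj 1 6 (by decide) (by omega)).elim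
            · exact (hinj 2 6 (by decide) (by omega)).elim
            · omega
            · exact (hinj 3 6 (by decide) (by omega)).elim
          · omega
          · exact (hinj 0 1 (by decide) (by omega)).elim
          · rcases h03 with h | h | h | h | h | h | h | h
            · omega
            · exact (hnon 3 5 6 (by decide) (by omega)).elim
            · exact (hinj 3 4 (by decide) (by omega)).elim
            · omega
            · exact (hinj 1 3 (by decide) (by omega)).elim
            · exact (hinj 2 3 (by decide) (by omega)).elim
            · exact (hnon 1 4 3 (by decide) (by omega)).elim
            · exact (hinj 3 6 (by decide) (by omega)).elim
          · omega
        · rcases h13 with h | h | h | h | h | h | h | h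
          · omega
          · omega
          · exact (hnon 3 4 5 (by decide) (by omega)).elim
          · omega
          · omega
          · exact (hnon 1 4 2 (by decide) (by omega)).elim
          · rcases h06 with h | h | h | h | h | h | h | h
            · omega
            · omega
            · exact (hnon 3 4 2 (by decide) (by omega)).elim
            · omega
            · omega
            · exact (hinj 2 6 (by decide) (by omega)).elim
            · omega
            · exact (hinj 2 3 (by decide) (by omega)).elim
          · exact (hinj 2 4 (by decide) (by omega)).elim
        · omega
        · exact (hinj 2 4 (by decide) (by omega)).elim
        · rcases h03 with h | h | h | h | h | h | h | h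
          · omega
          · rcases h12 with h | h | h | h | h | h | h | h
            · omega
            · omega
            · omega
            · omega
            · omega
            · omega
            · exact (hnon 2 3 4 (by decide) (by omega)).elim
            · omega
          · exact (hnon 3 6 7 (by decide) (by omega)).elim
          · omega
          · exact (hinj 1 3 (by decide) (by omega)).elim
          · exact (hinj 2 3 (by decide) (by omega)).elim
          · exact (hinj 3 4 (by decide) (by omega)).elim
          · rcases h06 with h | h | h | h | h | h | h | h
            · omega
            · omega
            · exact (hnon 4 6 3 (by decide) (by omega)).elim
            · rcases h13 with h | h | h | h | h | h | h | h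
              · omega
              · omega
              · omega
              · omega
              · omega
              · exact (hnon 1 6 2 (by decide) (by omega)).elim
              · omega
              · exact (hinj 0 1 (by decide) (by omega)).elim
            · omega
            · exact (hinj 2 6 (by decide) (by omega)).elim
            · omega
            · exact (hinj 3 6 (by decide) (by omega)).elim
        · exact (hinj 0 2 (by decide) (by omega)).elim
      · exact (hnon 1 6 7 (by decide) (by omega)).elim
      · omega
  · rcases h02 with h | h | h | h | h | h | h | h
    · omega
    · rcases h13 with h | h | h | h | h | h | h | h
      · omega
      · omega
      · omega
      · omega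
      · rcases h04 with h | h | h | h | h | h | h | h
        · omega
        · omega
        · omega
        · omega
        · omega
        · omega
        · exact (hnon 3 5 6 (by decide) (by omega)).elim
        · exact (hnon 3 5 7 (by decide) (by omega)).elim
      · exact (hinj 0 3 (by decide) (by omega)).elim
      · rcases h06 with h | h | h | h | h | h | h | h
        · omega
        · omega
        · omega
        · omega
        · exact (hnon 3 5 4 (by decide) (by omega)).elim
        · omega
        · omega
        · exact (hnon 3 5 7 (by decide) (by omega)).elim
      · rcases h03 with h | h | h | h | h | h | h | h
        · omega
        · exact (hinj 2 3 (by decide) (by omega)).elim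
        · rcases h12 with h | h | h | h | h | h | h | h
          · omega
          · omega
          · omega
          · omega
          · omega
          · omega
          · omega
          · omega
        · omega
        · rcases h06 with h | h | h | h | h | h | h | h
          · omega
          · exact (hinj 2 6 (by decide) (by omega)).elim
          · rcases h12 with h | h | h | h | h | h | h | h
            · omega
            · omega
            · omega
            · exact (hnon 2 5 4 (by decide) (by omega)).elim
            · exact (hnon 1 6 3 (by decide) (by omega)).elim
            · omega
            · omega
            · exact (hinj 2 3 (by decide) (by omega)).elim
          · exact (hnon 5 6 7 (by decide) (by omega)).elim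
          · exact (hinj 3 6 (by decide) (by omega)).elim
          · exact (hinj 1 6 (by decide) (by omega)).elim
          · omega
          · exact (hnon 2 3 6 (by decide) (by omega)).elim
        · exact (hinj 1 3 (by decide) (by omega)).elim
        · exact (hnon 2 6 7 (by decide) (by omega)).elim
        · omega
    · omega
    · rcases h13 with h | h | h | h | h | h | h | h
      · omega
      · omega
      · omega
      · omega
      · exact (hnon 2 5 4 (by decide) (by omega)).elim
      · omega
      · exact (hnon 2 5 6 (by decide) (by omega)).elim
      · exact (hnon 2 5 7 (by decide) (by omega)).elim
    · rcases h03 with h | h | h | h | h | h | h | h
      · omega
      · rcases h12 with h | h | h | h | h | h | h | h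
        · omega
        · omega
        · omega
        · omega
        · omega
        · exact (hinj 0 2 (by decide) (by omega)).elim
        · exact (hnon 3 4 6 (by decide) (by omega)).elim
        · exact (hnon 3 4 7 (by decide) (by omega)).elim
      · rcases h12 with h | h | h | h | h | h | h | h
        · omega
        · omega
        · omega
        · omega
        · exact (hinj 0 1 (by decide) (by omega)).elim
        · omega
        · exact (hnon 3 5 6 (by decide) (by omega)).elim
        · exact (hnon 3 5 7 (by decide) (by omega)).elim
      · omega
      · exact (hinj 2 3 (by decide) (by omega)).elim
      · exact (hinj 1 3 (by decide) (by omega)).elim
      · rcases h04 with h | h | h | h | h | h | h | h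
        · omega
        · rcases h13 with h | h | h | h | h | h | h | h
          · omega
          · omega
          · omega
          · omega
          · omega
          · exact (hinj 0 3 (by decide) (by omega)).elim
          · omega
          · exact (hnon 4 6 7 (by decide) (by omega)).elim
        · omega
        · rcases h13 with h | h | h | h | h | h | h | h
          · omega
          · omega
          · omega
          · omega
          · omega
          · omega
          · exact (hinj 0 1 (by decide) (by omega)).elim
          · exact (hnon 4 5 7 (by decide) (by omega)).elim
        · omega
        · exact (hinj 1 4 (by decide) (by omega)).elim
        · exact (hinj 3 4 (by decide) (by omega)).elim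
        · rcases h06 with h | h | h | h | h | h | h | h
          · omega
          · rcases h12 with h | h | h | h | h | h | h | h
            · omega
            · omega
            · omega
            · omega
            · omega
            · omega
            · omega
            · omega
          · rcases h12 with h | h | h | h | h | h | h | h
            · omega
            · omega
            · omega
            · omega
            · exact (hinj 0 1 (by decide) (by omega)).elim
            · omega
            · omega
            · exact (hnon 1 6 4 (by decide) (by omega)).elim
          · omega
          · exact (hinj 2 6 (by decide) (by omega)).elim
          · exact (hinj 1 6 (by decide) (by omega)).elim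
          · omega
          · exact (hinj 2 3 (by decide) (by omega)).elim
      · rcases h04 with h | h | h | h | h | h | h | h
        · omega
        · rcases h13 with h | h | h | h | h | h | h | h
          · omega
          · omega
          · omega
          · omega
          · omega
          · omega
          · omega
          · omega
        · omega
        · rcases h13 with h | h | h | h | h | h | h | h
          · omega
          · omega
          · omega
          · omega
          · omega
          · omega
          · exact (hnon 4 5 6 (by decide) (by omega)).elim
          · exact (hinj 0 1 (by decide) (by omega)).elim
        · omega
        · exact (hinj 1 4 (by decide) (by omega)).elim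
        · rcases h13 with h | h | h | h | h | h | h | h
          · omega
          · omega
          · omega
          · omega
          · omega
          · omega
          · rcases h06 with h | h | h | h | h | h | h | h
            · omega
            · omega
            · omega
            · omega
            · omega
            · omega
            · omega
            · omega
          · exact (hinj 0 1 (by decide) (by omega)).elim
        · exact (hinj 3 4 (by decide) (by omega)).elim
    · exact (hinj 1 2 (by decide) (by omega)).elim
    · rcases h03 with h | h | h | h | h | h | h | h
      · omega
      · rcases h12 with h | h | h | h | h | h | h | h
        · omega
        · omega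
        · omega
        · omega
        · exact (hnon 3 6 4 (by decide) (by omega)).elim
        · exact (hinj 0 2 (by decide) (by omega)).elim
        · omega
        · exact (hnon 3 6 7 (by decide) (by omega)).elim
      · rcases h12 with h | h | h | h | h | h | h | h
        · omega
        · omega
        · omega
        · omega
        · exact (hnon 3 5 4 (by decide) (by omega)).elim
        · omega
        · exact (hinj 0 1 (by decide) (by omega)).elim
        · exact (hnon 3 5 7 (by decide) (by omega)).elim
      · omega
      · rcases h24 with h | h | h | h | h | h | h | h
        · omega
        · exact (hnon 3 6 1 (by decide) (by omega)).elim
        · omega
        · omega
        · omega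
        · exact (hnon 2 3 1 (by decide) (by omega)).elim
        · omega
        · exact (hnon 3 6 7 (by decide) (by omega)).elim
      · exact (hinj 1 3 (by decide) (by omega)).elim
      · exact (hinj 2 3 (by decide) (by omega)).elim
      · rcases h04 with h | h | h | h | h | h | h | h
        · omega
        · rcases h12 with h | h | h | h | h | h | h | h
          · omega
          · omega
          · omega
          · exact (hnon 1 6 7 (by decide) (by omega)).elim
          · omega
          · exact (hinj 0 2 (by decide) (by omega)).elim
          · omega
          · exact (hnon 4 6 7 (by decide) (by omega)).elim
        · rcases h12 with h | h | h | h | h | h | h | h
          · omega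
          · omega
          · omega
          · exact (hnon 1 6 7 (by decide) (by omega)).elim
          · omega
          · omega
          · exact (hinj 0 1 (by decide) (by omega)).elim
          · exact (hnon 1 4 3 (by decide) (by omega)).elim
        · rcases h13 with h | h | h | h | h | h | h | h
          · omega
          · omega
          · omega
          · omega
          · omega
          · omega
          · exact (hnon 1 4 2 (by decide) (by omega)).elim
          · exact (hinj 0 1 (by decide) (by omega)).elim
        · omega
        · exact (hinj 1 4 (by decide) (by omega)).elim
        · exact (hinj 2 4 (by decide) (by omega)).elim
        · exact (hinj 3 4 (by decide) (by omega)).elim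
    · rcases h03 with h | h | h | h | h | h | h | h
      · omega
      · rcases h12 with h | h | h | h | h | h | h | h
        · omega
        · omega
        · omega
        · omega
        · omega
        · omega
        · omega
        · omega
      · rcases h12 with h | h | h | h | h | h | h | h
        · omega
        · omega
        · omega
        · omega
        · exact (hnon 3 5 4 (by decide) (by omega)).elim
        · omega
        · exact (hnon 3 5 6 (by decide) (by omega)).elim
        · exact (hinj 0 1 (by decide) (by omega)).elim
      · omega
      · rcases h24 with h | h | h | h | h | h | h | h
        · omega
        · omega
        · omega
        · omega
        · omega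
        · omega
        · omega
        · omega
      · exact (hinj 1 3 (by decide) (by omega)).elim
      · rcases h04 with h | h | h | h | h | h | h | h
        · omega
        · rcases h12 with h | h | h | h | h | h | h | h
          · omega
          · omega
          · omega
          · omega
          · omega
          · omega
          · omega
          · omega
        · rcases h12 with h | h | h | h | h | h | h | h
          · omega
          · omega
          · omega
          · omega
          · omega
          · omega
          · exact (hnon 1 4 3 (by decide) (by omega)).elim
          · exact (hinj 0 1 (by decide) (by omega)).elim
        · rcases h13 with h | h | h | h | h | h | h | h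
          · omega
          · omega
          · exact (hnon 1 6 7 (by decide) (by omega)).elim
          · omega
          · omega
          · omega
          · exact (hinj 0 1 (by decide) (by omega)).elim
          · exact (hnon 1 4 2 (by decide) (by omega)).elim
        · omega
        · exact (hinj 1 4 (by decide) (by omega)).elim
        · exact (hinj 3 4 (by decide) (by omega)).elim
        · exact (hinj 2 4 (by decide) (by omega)).elim
      · exact (hinj 2 3 (by decide) (by omega)).elim
  · rcases h02 with h | h | h | h | h | h | h | h
    · omega
    · rcases h13 with h | h | h | h | h | h | h | h
      · omega
      · omega
      · omega
      · omega
      · rcases h04 with h | h | h | h | h | h | h | h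
        · omega
        · omega
        · omega
        · omega
        · omega
        · exact (hnon 3 6 5 (by decide) (by omega)).elim
        · omega
        · exact (hnon 3 6 7 (by decide) (by omega)).elim
      · rcases h03 with h | h | h | h | h | h | h | h
        · omega
        · exact (hinj 2 3 (by decide) (by omega)).elim
        · rcases h12 with h | h | h | h | h | h | h | h
          · omega
          · omega
          · omega
          · omega
          · exact (hnon 0 5 4 (by decide) (by omega)).elim
          · omega
          · omega
          · exact (hnon 0 5 7 (by decide) (by omega)).elim
        · omega
        · rcases h15 with h | h | h | h | h | h | h | h
          · omega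
          · omega
          · omega
          · omega
          · omega
          · omega
          · omega
          · rcases h04 with h | h | h | h | h | h | h | h
            · omega
            · exact (hinj 2 4 (by decide) (by omega)).elim
            · rcases h06 with h | h | h | h | h | h | h | h
              · omega
              · omega
              · omega
              · omega
              · omega
              · exact (hnon 2 3 6 (by decide) (by omega)).elim
              · omega
              · omega
            · omega
            · omega
            · exact (hinj 0 2 (by decide) (by omega)).elim
            · exact (hinj 2 3 (by decide) (by omega)).elim
            · omega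
        · omega
        · exact (hinj 1 3 (by decide) (by omega)).elim
        · omega
      · exact (hinj 0 3 (by decide) (by omega)).elim
      · rcases h03 with h | h | h | h | h | h | h | h
        · omega
        · exact (hinj 2 3 (by decide) (by omega)).elim
        · rcases h12 with h | h | h | h | h | h | h | h
          · omega
          · omega
          · omega
          · omega
          · omega
          · omega
          · omega
          · omega
        · omega
        · rcases h15 with h | h | h | h | h | h | h | h
          · omega
          · omega
          · omega
          · exact (hnon 5 6 4 (by decide) (by omega)).elim
          · exact (hnon 2 5 3 (by decide) (by omega)).elim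
          · omega
          · exact (hinj 0 5 (by decide) (by omega)).elim
          · exact (hinj 3 5 (by decide) (by omega)).elim
        · exact (hnon 2 5 7 (by decide) (by omega)).elim
        · exact (hinj 1 3 (by decide) (by omega)).elim
        · omega
    · omega
    · rcases h13 with h | h | h | h | h | h | h | h
      · omega
      · omega
      · omega
      · omega
      · exact (hnon 2 6 4 (by decide) (by omega)).elim
      · exact (hnon 2 6 5 (by decide) (by omega)).elim
      · omega
      · exact (hnon 2 6 7 (by decide) (by omega)).elim
    · rcases h03 with h | h | h | h | h | h | h | h
      · omega
      · rcases h12 with h | h | h | h | h | h | h | h
        · omega
        · omega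
        · omega
        · omega
        · omega
        · exact (hnon 3 4 5 (by decide) (by omega)).elim
        · exact (hinj 0 2 (by decide) (by omega)).elim
        · exact (hnon 3 4 7 (by decide) (by omega)).elim
      · rcases h12 with h | h | h | h | h | h | h | h
        · omega
        · omega
        · omega
        · omega
        · exact (hinj 0 1 (by decide) (by omega)).elim
        · exact (hnon 3 6 5 (by decide) (by omega)).elim
        · omega
        · exact (hnon 3 6 7 (by decide) (by omega)).elim
      · omega
      · exact (hinj 2 3 (by decide) (by omega)).elim
      · rcases h15 with h | h | h | h | h | h | h | h
        · omega
        · omega
        · exact (hnon 3 6 2 (by decide) (by omega)).elim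
        · omega
        · exact (hnon 3 6 4 (by decide) (by omega)).elim
        · omega
        · omega
        · exact (hnon 3 6 7 (by decide) (by omega)).elim
      · exact (hinj 1 3 (by decide) (by omega)).elim
      · rcases h04 with h | h | h | h | h | h | h | h
        · omega
        · rcases h13 with h | h | h | h | h | h | h | h
          · omega
          · omega
          · omega
          · omega
          · omega
          · omega
          · omega
          · omega
        · omega
        · rcases h13 with h | h | h | h | h | h | h | h
          · omega
          · omega
          · omega
          · omega
          · omega
          · exact (hnon 4 6 5 (by decide) (by omega)).elim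
          · omega
          · exact (hinj 0 1 (by decide) (by omega)).elim
        · omega
        · rcases h15 with h | h | h | h | h | h | h | h
          · omega
          · omega
          · omega
          · exact (hnon 4 6 3 (by decide) (by omega)).elim
          · omega
          · omega
          · omega
          · exact (hnon 1 4 3 (by decide) (by omega)).elim
        · exact (hinj 1 4 (by decide) (by omega)).elim
        · exact (hinj 3 4 (by decide) (by omega)).elim
    · rcases h15 with h | h | h | h | h | h | h | h
      · omega
      · omega
      · omega
      · exact (hnon 2 6 3 (by decide) (by omega)).elim
      · exact (hnon 2 6 4 (by decide) (by omega)).elim
      · omega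
      · omega
      · exact (hnon 2 6 7 (by decide) (by omega)).elim
    · exact (hinj 1 2 (by decide) (by omega)).elim
    · rcases h03 with h | h | h | h | h | h | h | h
      · omega
      · rcases h12 with h | h | h | h | h | h | h | h
        · omega
        · omega
        · omega
        · omega
        · omega
        · omega
        · omega
        · omega
      · rcases h12 with h | h | h | h | h | h | h | h
        · omega
        · omega
        · omega
        · omega
        · exact (hnon 3 6 4 (by decide) (by omega)).elim
        · exact (hnon 3 6 5 (by decide) (by omega)).elim
        · omega
        · exact (hinj 0 1 (by decide) (by omega)).elim
      · omega
      · rcases h24 with h | h | h | h | h | h | h | h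
        · omega
        · omega
        · omega
        · omega
        · omega
        · omega
        · omega
        · omega
      · rcases h15 with h | h | h | h | h | h | h | h
        · omega
        · omega
        · exact (hnon 3 6 2 (by decide) (by omega)).elim
        · omega
        · exact (hnon 3 6 4 (by decide) (by omega)).elim
        · omega
        · omega
        · exact (hnon 3 6 7 (by decide) (by omega)).elim
      · exact (hinj 1 3 (by decide) (by omega)).elim
      · exact (hinj 2 3 (by decide) (by omega)).elim
  · rcases h02 with h | h | h | h | h | h | h | h
    · omega
    · rcases h13 with h | h | h | h | h | h | h | h
      · omega
      · omega
      · omega
      · omega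
      · rcases h04 with h | h | h | h | h | h | h | h
        · omega
        · omega
        · omega
        · omega
        · omega
        · omega
        · omega
        · omega
      · rcases h15 with h | h | h | h | h | h | h | h
        · omega
        · omega
        · omega
        · omega
        · omega
        · omega
        · omega
        · omega
      · rcases h06 with h | h | h | h | h | h | h | h
        · omega
        · omega
        · omega
        · omega
        · omega
        · omega
        · omega
        · omega
      · exact (hinj 0 3 (by decide) (by omega)).elim
    · omega
    · rcases h13 with h | h | h | h | h | h | h | h
      · omega
      · omega
      · omega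
      · omega
      · omega
      · omega
      · omega
      · omega
    · rcases h03 with h | h | h | h | h | h | h | h
      · omega
      · rcases h12 with h | h | h | h | h | h | h | h
        · omega
        · omega
        · omega
        · omega
        · omega
        · exact (hnon 3 4 5 (by decide) (by omega)).elim
        · exact (hnon 3 4 6 (by decide) (by omega)).elim
        · exact (hinj 0 2 (by decide) (by omega)).elim
      · rcases h12 with h | h | h | h | h | h | h | h
        · omega
        · omega
        · omega
        · omega
        · omega
        · omega
        · omega
        · omega
      · omega
      · exact (hinj 2 3 (by decide) (by omega)).elim
      · rcases h15 with h | h | h | h | h | h | h | h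
        · omega
        · omega
        · omega
        · omega
        · omega
        · omega
        · omega
        · omega
      · rcases h04 with h | h | h | h | h | h | h | h
        · omega
        · rcases h13 with h | h | h | h | h | h | h | h
          · omega
          · omega
          · omega
          · omega
          · omega
          · exact (hnon 4 6 5 (by decide) (by omega)).elim
          · omega
          · exact (hinj 0 3 (by decide) (by omega)).elim
        · omega
        · rcases h13 with h | h | h | h | h | h | h | h
          · omega
          · omega
          · omega
          · omega
          · omega
          · omega
          · omega
          · omega
        · omega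
        · rcases h15 with h | h | h | h | h | h | h | h
          · omega
          · omega
          · omega
          · omega
          · omega
          · omega
          · omega
          · omega
        · exact (hinj 3 4 (by decide) (by omega)).elim
        · exact (hinj 1 4 (by decide) (by omega)).elim
      · exact (hinj 1 3 (by decide) (by omega)).elim
    · rcases h15 with h | h | h | h | h | h | h | h
      · omega
      · omega
      · omega
      · omega
      · omega
      · omega
      · omega
      · omega
    · rcases h03 with h | h | h | h | h | h | h | h
      · omega
      · rcases h12 with h | h | h | h | h | h | h | h
        · omega
        · omega
        · omega
        · omega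
        · exact (hnon 3 6 4 (by decide) (by omega)).elim
        · exact (hnon 3 6 5 (by decide) (by omega)).elim
        · omega
        · exact (hinj 0 2 (by decide) (by omega)).elim
      · rcases h12 with h | h | h | h | h | h | h | h
        · omega
        · omega
        · omega
        · omega
        · omega
        · omega
        · omega
        · omega
      · omega
      · rcases h24 with h | h | h | h | h | h | h | h
        · omega
        · exact (hnon 3 6 1 (by decide) (by omega)).elim
        · omega
        · omega
        · omega
        · exact (hnon 3 6 5 (by decide) (by omega)).elim
        · omega
        · exact (hnon 2 3 1 (by decide) (by omega)).elim
      · rcases h15 with h | h | h | h | h | h | h | h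
        · omega
        · omega
        · omega
        · omega
        · omega
        · omega
        · omega
        · omega
      · exact (hinj 2 3 (by decide) (by omega)).elim
      · exact (hinj 1 3 (by decide) (by omega)).elim
    · exact (hinj 1 2 (by decide) (by omega)).elim

/-- Every vertex other than the last one has a neighbour. -/
theorem has_nb : ∀ i : Fin 8, i ≠ 7 → ∃ j, j ≠ i ∧ ex.Adj i j := by decide

theorem adj_list : ex.Adj 0 1 ∧ ex.Adj 0 2 ∧ ex.Adj 0 3 ∧ ex.Adj 0 4 ∧ ex.Adj 0 6 ∧ ex.Adj 1 2 ∧
    ex.Adj 1 3 ∧ ex.Adj 1 5 ∧ ex.Adj 2 4 := by decide

/-- Every sum labeling of the example is a rational multiple of the label set
(2, 3, 4, 5, 6, 7, 8, 10). -/
theorem rigid (l : Fin 8 → ℕ) (h : IsSumLabeling ex l) :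
    2 * l 1 = 3 * l 0 ∧ l 2 = 2 * l 0 ∧ 2 * l 3 = 5 * l 0 ∧ l 4 = 3 * l 0 ∧
      2 * l 5 = 7 * l 0 ∧ l 6 = 4 * l 0 ∧ l 7 = 5 * l 0 := by
  obtain ⟨hi, hp, ha⟩ := h
  have hinj : ∀ i j : Fin 8, i ≠ j → l i = l j → False := fun i j hij e => hij (hi e)
  have hE : ∀ i j : Fin 8, i ≠ j → ex.Adj i j → ∃ w, l w = l i + l j :=
    fun i j hij e => (ha i j hij).1 e
  obtain ⟨m, hm⟩ := Finite.exists_max l
  have hm7 : m = 7 := by
    by_contra hne
    obtain ⟨j, hj, hadj⟩ := has_nb m hne
    obtain ⟨w, hw⟩ := hE m j (Ne.symm hj) hadj
    have h1 := hm w
    have h2 := hp j
    omega
  subst hm7
  have hlt : ∀ i : Fin 8, i ≠ 7 → l i < l 7 := fun i hi7 =>
    lt_of_le_of_ne (hm i) (fun e => hinj i 7 hi7 e)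
  obtain ⟨e1, e2, e3, e4, e5, e6, e7, e8, e9⟩ := adj_list
  refine core l hinj (hp 0) (hp 1) (hp 2) (hp 3) (hp 4) (hp 5) (hp 6) (hp 7)
    (hlt 0 (by decide)) (hlt 1 (by decide)) (hlt 2 (by decide)) (hlt 3 (by decide))
    (hlt 4 (by decide)) (hlt 5 (by decide)) (hlt 6 (by decide)) ?_
    (D_of_ex l _ (hE 0 1 (by decide) e1)) (D_of_ex l _ (hE 0 2 (by decide) e2))
    (D_of_ex l _ (hE 0 3 (by decide) e3)) (D_of_ex l _ (hE 0 4 (by decide) e4))
    (D_of_ex l _ (hE 0 6 (by decide) e5)) (D_of_ex l _ (hE 1 2 (by decide) e6))
    (D_of_ex l _ (hE 1 3 (by decide) e7)) (D_of_ex l _ (hE 1 5 (by decide) e8))
    (D_of_ex l _ (hE 2 4 (by decide) e9))
  intro i j w hij hw
  exact hij.2 ((ha i j hij.1).2 ⟨w, hw⟩)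

theorem no_minimal : ¬ HasMinimalSumLabeling ex := by
  rintro ⟨l, hl, u, hu⟩
  have hp := hl.2.1 0
  obtain ⟨h1, h2, h3, h4, h5, h6, h7⟩ := rigid l hl
  fin_cases u <;> simp at hu <;> omega

/-- There is a sum graph, on 8 vertices, that has no minimal sum labeling. -/
theorem result : ∃ G : SimpleGraph (Fin 8), IsSumGraph G ∧ ¬ HasMinimalSumLabeling G :=
  ⟨ex, ex_isSumGraph, no_minimal⟩

end Pool.Agent.Results.MP_520ea7_co.NoMinimal
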